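import Pool.Agent.H95.Unc

set_option autoImplicit false

open Pool.Agent.H95.Unc

theorem Pool.Agent.Results.MP_d6da6d_an.NotOptimal.result :
    ∃ u : ℝ → ℝ, MeasureTheory.Integrable u ∧ (∀ x ∉ Set.Icc (-1 / 2 : ℝ) (1 / 2), u x = 0) ∧
      (∀ x ∈ Set.Icc (-1 / 2 : ℝ) (1 / 2), u x ≠ 0) ∧ Phi 2 (fun x => u x) < Phi 2 chi :=
  main
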